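import Pool.Agent.W434.BW.StmA

/-! BW-PI: products and images of absorption free algebras. -/

set_option autoImplicit false

namespace Pool.Agent.W554.BW

open Pool.Agent.W434.BW

variable {Ω : Type} {ar : Ω → ℕ}

theorem ev_prod3 {X Y : Type} (a : Alg ar X) (b : Alg ar Y) (t : Tm ar (Fin 3)) (p q r : X × Y) :
    t.ev (prodA a b) ![p, q, r] = (t.ev a ![p.1, q.1, r.1], t.ev b ![p.2, q.2, r.2]) := by
  rw [ev_prod, vec3 (fun s : X × Y => s.1), vec3 (fun s : X × Y => s.2)]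

theorem ev_const3 {X : Type} {a : Alg ar X} (h : Idem a) (t : Tm ar (Fin 3)) (x : X) :
    t.ev a ![x, x, x] = x := by
  have e : (![x, x, x] : Fin 3 → X) = fun _ => x := by
    funext v
    fin_cases v <;> rfl
  rw [e]
  exact ev_idem h t x

theorem prod_part {X Y : Type} (a : Alg ar X) (b : Alg ar Y) (ha : Idem a) (_hb : Idem b)
    (hA : AF a) (hB : AF b) : AF (prodA a b) := by
  rintro C hS ⟨⟨x0, y0⟩, h0⟩ ⟨t, ht⟩
  have h1 : {x : X | ∃ y, (x, y) ∈ C} = Set.univ := by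
    apply hA
    · intro ω x hx
      choose y hy using hx
      exact ⟨b ω y, hS ω (fun i => (x i, y i)) hy⟩
    · exact ⟨x0, y0, h0⟩
    · refine ⟨t, ?_⟩
      rintro c ⟨y1, hc⟩ d ⟨y2, hd⟩ x
      obtain ⟨k1, k2, k3⟩ := ht _ hc _ hd (x, y0)
      rw [ev_prod3] at k1 k2 k3
      exact ⟨⟨_, k1⟩, ⟨_, k2⟩, ⟨_, k3⟩⟩
  ext ⟨x, y⟩
  refine ⟨fun _ => trivial, fun _ => ?_⟩
  have h2 : {y : Y | (x, y) ∈ C} = Set.univ := by
    apply hB
    · intro ω z hz
      have h3 := hS ω (fun i => (x, z i)) hz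
      have h4 : prodA a b ω (fun i => (x, z i)) = (x, b ω z) :=
        Prod.ext (ha ω x) rfl
      rw [h4] at h3
      exact h3
    · have h3 : x ∈ {x : X | ∃ y, (x, y) ∈ C} := by rw [h1]; trivial
      exact h3
    · refine ⟨t, ?_⟩
      intro c hc d hd z
      obtain ⟨k1, k2, k3⟩ := ht _ hc _ hd (x, z)
      rw [ev_prod3] at k1 k2 k3
      simp only [ev_const3 ha] at k1 k2 k3
      exact ⟨k1, k2, k3⟩
  have h5 : y ∈ {y : Y | (x, y) ∈ C} := by rw [h2]; trivial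
  exact h5

theorem hom_part {X Y : Type} (a : Alg ar X) (b : Alg ar Y) (f : X → Y) (hf : Hom a b f)
    (hs : Function.Surjective f) (hA : AF a) : AF b := by
  rintro C hS ⟨y0, h0⟩ ⟨t, ht⟩
  have h1 : {x : X | f x ∈ C} = Set.univ := by
    apply hA
    · intro ω x hx
      show f (a ω x) ∈ C
      rw [hf]
      exact hS ω _ hx
    · obtain ⟨x, rfl⟩ := hs y0
      exact ⟨x, h0⟩
    · refine ⟨t, ?_⟩
      intro c hc d hd x
      obtain ⟨k1, k2, k3⟩ := ht _ hc _ hd (f x)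
      refine ⟨?_, ?_, ?_⟩
      · show f _ ∈ C
        rw [ev_hom hf, vec3]; exact k1
      · show f _ ∈ C
        rw [ev_hom hf, vec3]; exact k2
      · show f _ ∈ C
        rw [ev_hom hf, vec3]; exact k3
  ext y
  refine ⟨fun _ => trivial, fun _ => ?_⟩
  obtain ⟨x, rfl⟩ := hs y
  have h2 : x ∈ {x : X | f x ∈ C} := by rw [h1]; trivial
  exact h2

theorem bin_part {X : Type} (a : Alg ar X) (hA : AF a) : BAF a := by
  rintro C hS hne ⟨s, hs⟩
  apply hA C hS hne
  have key : ∀ p q r : X, (s.bind ![s.bind ![Tm.var 0, Tm.var 1], Tm.var 2] : Tm ar (Fin 3)).ev a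
      ![p, q, r] = s.ev a ![s.ev a ![p, q], r] := by
    intro p q r
    rw [ev_bind]
    congr 1
    funext v
    fin_cases v
    · show (s.bind ![Tm.var 0, Tm.var 1] : Tm ar (Fin 3)).ev a ![p, q, r] = s.ev a ![p, q]
      rw [ev_bind]
      congr 1
      funext w
      fin_cases w <;> rfl
    · rfl
  refine ⟨s.bind ![s.bind ![Tm.var 0, Tm.var 1], Tm.var 2], ?_⟩
  intro c hc d hd x
  refine ⟨?_, ?_, ?_⟩
  · rw [key]
    exact (hs _ (hs c hc d).1 x).1
  · rw [key]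
    exact (hs _ (hs c hc x).1 d).1
  · rw [key]
    exact (hs _ (hs c hc x).2 d).1

theorem prodAF : S_prodAF :=
  ⟨fun _ _ _ _ a b ha hb hA hB => prod_part a b ha hb hA hB,
    fun _ _ _ _ a b f hf hs hA => hom_part a b f hf hs hA,
    fun _ _ _ a hA => bin_part a hA⟩

end Pool.Agent.W554.BW
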